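import Mathlib
import Pool.Agent.Helper87.TC.Lib

/-! Module ADAPT: coordinates adapted to an involution. -/

set_option autoImplicit false

namespace Pool.Agent.Helper87.TC

open MvPolynomial Pool.Agent.Helper48.VMRT Pool.Agent.Helper87.VM

/-- Coordinates on an invariant subspace. -/
theorem adapt_sub {κ : Type} [Fintype κ] (γ : (κ → ℂ) →ₗ[ℂ] (κ → ℂ))
    (E : Submodule ℂ (κ → ℂ)) (hE : ∀ v ∈ E, γ v ∈ E) :
    ∃ (a : ℕ) (e : (Fin a → ℂ) ≃ₗ[ℂ] E) (g : (Fin a → ℂ) →ₗ[ℂ] (Fin a → ℂ)),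
      ∀ (n : ℕ) (p : Fin a → ℂ), ((e ((g ^ n) p) : E) : κ → ℂ) = (γ ^ n) (e p : E) := by
  refine ⟨Module.finrank ℂ E, (Module.finBasis ℂ E).equivFun.symm,
    ((Module.finBasis ℂ E).equivFun : E →ₗ[ℂ] (Fin (Module.finrank ℂ E) → ℂ)).comp
      ((γ.restrict hE).comp
        ((Module.finBasis ℂ E).equivFun.symm : (Fin (Module.finrank ℂ E) → ℂ) →ₗ[ℂ] E)), ?_⟩
  intro n
  induction n with
  | zero => intro p; simp
  | succ n ih =>
    intro p
    rw [pow_succ', pow_succ', Module.End.mul_apply, Module.End.mul_apply, ← ih]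
    simp only [LinearMap.comp_apply, LinearEquiv.coe_coe, LinearEquiv.symm_apply_apply]
    rfl

theorem st_ADAPT : ST_ADAPT := by
  intro κ _ γ K ε hε hγ
  obtain ⟨δ, hδ⟩ : ∃ δ : ℂ, δ ^ 2 = ε := IsAlgClosed.exists_pow_nat_eq ε (by norm_num)
  have hδ0 : δ ≠ 0 := by
    rintro rfl
    apply hε
    rw [← hδ]; ring
  set T := γ ^ K with hT
  have hTT : ∀ v, T (T v) = ε • v := by
    intro v
    rw [← hγ v, ← Module.End.mul_apply, hT, ← pow_add, two_mul]
  have hcomm : ∀ v, γ (T v) = T (γ v) := by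
    intro v
    rw [← Module.End.mul_apply, ← Module.End.mul_apply, hT, ← pow_succ, ← pow_succ']
  let Ep : Submodule ℂ (κ → ℂ) := LinearMap.ker (T - δ • LinearMap.id)
  let Em : Submodule ℂ (κ → ℂ) := LinearMap.ker (T + δ • LinearMap.id)
  have mp : ∀ v, v ∈ Ep ↔ T v = δ • v := by
    intro v
    simp only [Ep, LinearMap.mem_ker, LinearMap.sub_apply, LinearMap.smul_apply,
      LinearMap.id_apply, sub_eq_zero]
  have mm : ∀ v, v ∈ Em ↔ T v = (-δ) • v := by
    intro v
    simp only [Em, LinearMap.mem_ker, LinearMap.add_apply, LinearMap.smul_apply,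
      LinearMap.id_apply, neg_smul, ← eq_neg_iff_add_eq_zero]
  have hc : IsCompl Ep Em := by
    constructor
    · rw [Submodule.disjoint_def]
      intro v h1 h2
      rw [mp] at h1
      rw [mm] at h2
      rw [h1, neg_smul] at h2
      have h3 : (2 * δ) • v = 0 := by
        rw [mul_smul, two_smul]
        nth_rewrite 1 [h2]
        simp
      rcases smul_eq_zero.1 h3 with h4 | h4
      · exact absurd h4 (mul_ne_zero two_ne_zero hδ0)
      · exact h4
    · rw [codisjoint_iff, eq_top_iff]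
      intro v _
      have e : v = (2⁻¹ : ℂ) • (v + δ⁻¹ • T v) + (2⁻¹ : ℂ) • (v - δ⁻¹ • T v) := by
        rw [← smul_add]
        have : v + δ⁻¹ • T v + (v - δ⁻¹ • T v) = (2 : ℂ) • v := by
          rw [two_smul]; abel
        rw [this, smul_smul]; norm_num
      rw [e]
      have hd : δ⁻¹ * ε = δ := by
        rw [← hδ]; field_simp
      refine Submodule.add_mem_sup (Submodule.smul_mem _ _ ?_) (Submodule.smul_mem _ _ ?_)
      · rw [mp, map_add, map_smul, hTT, smul_smul, hd, smul_add, smul_smul,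
          mul_inv_cancel₀ hδ0, one_smul, add_comm]
      · rw [mm, map_sub, map_smul, hTT, smul_smul, hd, neg_smul, smul_sub, smul_smul,
          mul_inv_cancel₀ hδ0, one_smul, neg_sub]
  have ip : ∀ v ∈ Ep, γ v ∈ Ep := by
    intro v hv
    rw [mp] at hv ⊢
    rw [← hcomm, hv, map_smul]
  have im : ∀ v ∈ Em, γ v ∈ Em := by
    intro v hv
    rw [mm] at hv ⊢
    rw [← hcomm, hv, map_smul]
  obtain ⟨a, ea, ga, ha⟩ := adapt_sub γ Ep ip
  obtain ⟨b, eb, gb, hb⟩ := adapt_sub γ Em im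
  let φ : (Fin a ⊕ Fin b → ℂ) ≃ₗ[ℂ] (κ → ℂ) :=
    (LinearEquiv.sumArrowLequivProdArrow (Fin a) (Fin b) ℂ ℂ).trans
      ((LinearEquiv.prodCongr ea eb).trans (Submodule.prodEquivOfIsCompl Ep Em hc))
  have hφ : ∀ y, φ y = ((ea (pl y) : Ep) : κ → ℂ) + ((eb (qr y) : Em) : κ → ℂ) := by
    intro y
    rfl
  refine ⟨Fin a, Fin b, inferInstance, inferInstance, φ, ga, gb, δ, hδ0, hδ, ?_, ?_, ?_, ?_⟩
  · intro y
    rw [hφ, hφ, pl_elim, qr_elim, map_add]
    have h1 := ha 1 (pl y)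
    have h2 := hb 1 (qr y)
    rw [pow_one, pow_one] at h1 h2
    rw [h1, h2]
  · intro p
    apply ea.injective
    apply Subtype.ext
    rw [ha]
    have h1 := (mp _).1 (ea p).2
    rw [← hT, h1, map_smul]
    rfl
  · intro q
    apply eb.injective
    apply Subtype.ext
    rw [hb]
    have h1 := (mm _).1 (eb q).2
    rw [← hT, h1, map_smul]
    rfl
  · intro y
    rw [hφ, hφ, pl_sg, qr_sg, map_add, (mp _).1 (ea (pl y)).2, (mm _).1 (eb (qr y)).2, map_neg,
      smul_add]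
    congr 1
    rw [neg_smul, Submodule.coe_neg, smul_neg]

end Pool.Agent.Helper87.TC
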