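import Mathlib
import Pool.Agent.Helper87.TC.Lib

/-! Module BC: the bihomogeneous components of a form. -/

set_option autoImplicit false

namespace Pool.Agent.Helper87.TC

open MvPolynomial Pool.Agent.Helper48.VMRT Pool.Agent.Helper87.VM

section Bc

variable {κα κβ : Type}

theorem bc_coeff [DecidableEq ℕ] (j : ℕ) (f : MvPolynomial (κα ⊕ κβ) ℂ) (m : κα ⊕ κβ →₀ ℕ) :
    coeff m (bcomp j f) =
      if Finsupp.weight (Sum.elim (fun _ => 0) (fun _ => 1) : κα ⊕ κβ → ℕ) m = j then coeff m f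
      else 0 := by
  unfold bcomp
  rw [coeff_weightedHomogeneousComponent]

variable [Fintype κα] [Fintype κβ]

theorem bc_weight (m : κα ⊕ κβ →₀ ℕ) :
    Finsupp.weight (Sum.elim (fun _ => 0) (fun _ => 1) : κα ⊕ κβ → ℕ) m =
      ∑ j : κβ, m (Sum.inr j) := by
  rw [Finsupp.weight_apply, Finsupp.sum_fintype _ _ (by simp), Fintype.sum_sum_type]
  simp

theorem bc_degree (m : κα ⊕ κβ →₀ ℕ) :
    m.degree = ∑ i : κα, m (Sum.inl i) + ∑ j : κβ, m (Sum.inr j) := by
  rw [Finsupp.degree_eq_sum, Fintype.sum_sum_type]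

theorem bc_hom {d : ℕ} {f : MvPolynomial (κα ⊕ κβ) ℂ} (h : HomE d f) {m : κα ⊕ κβ →₀ ℕ}
    (hm : coeff m f ≠ 0) : m.degree = d := by
  rw [Finsupp.degree_eq_weight_one]
  exact isHomogeneous_of_homE h hm

theorem bc_prod (x y : ℂ) (p : κα → ℂ) (q : κβ → ℂ) (m : κα ⊕ κβ →₀ ℕ) :
    ∏ i, (Sum.elim (x • p) (y • q) : κα ⊕ κβ → ℂ) i ^ m i =
      x ^ (∑ i : κα, m (Sum.inl i)) * y ^ (∑ j : κβ, m (Sum.inr j)) *
        ∏ i, (Sum.elim p q : κα ⊕ κβ → ℂ) i ^ m i := by
  rw [Fintype.prod_sum_type, Fintype.prod_sum_type]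
  simp only [Sum.elim_inl, Sum.elim_inr, Pi.smul_apply, smul_eq_mul, mul_pow,
    Finset.prod_mul_distrib, Finset.prod_pow_eq_pow_sum]
  ring

theorem bc_supp {j : ℕ} {f : MvPolynomial (κα ⊕ κβ) ℂ} {m : κα ⊕ κβ →₀ ℕ}
    (hm : coeff m (bcomp j f) ≠ 0) : ∑ k : κβ, m (Sum.inr k) = j ∧ coeff m f ≠ 0 := by
  rw [bc_coeff, bc_weight] at hm
  by_cases h : ∑ k : κβ, m (Sum.inr k) = j
  · rw [if_pos h] at hm
    exact ⟨h, hm⟩
  · rw [if_neg h] at hm
    exact absurd rfl hm

theorem bc_one {d : ℕ} {f : MvPolynomial (κα ⊕ κβ) ℂ} (h : HomE d f) (x y : ℂ) (p : κα → ℂ)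
    (q : κβ → ℂ) (j : ℕ) : eval (Sum.elim (x • p) (y • q)) (bcomp j f) =
      x ^ (d - j) * y ^ j * eval (Sum.elim p q) (bcomp j f) := by
  rw [eval_eq', eval_eq', Finset.mul_sum]
  refine Finset.sum_congr rfl fun m hm => ?_
  obtain ⟨h1, h2⟩ := bc_supp (mem_support_iff.1 hm)
  have h3 := bc_hom h h2
  rw [bc_degree, h1] at h3
  rw [bc_prod, h1, show ∑ i : κα, m (Sum.inl i) = d - j by omega]
  ring

theorem bc_right (f : MvPolynomial (κα ⊕ κβ) ℂ) (y : ℂ) (p : κα → ℂ)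
    (q : κβ → ℂ) (j : ℕ) : eval (Sum.elim p (y • q)) (bcomp j f) =
      y ^ j * eval (Sum.elim p q) (bcomp j f) := by
  rw [eval_eq', eval_eq', Finset.mul_sum]
  refine Finset.sum_congr rfl fun m hm => ?_
  obtain ⟨h1, h2⟩ := bc_supp (mem_support_iff.1 hm)
  have h4 := bc_prod 1 y p q m
  rw [one_smul, one_pow, one_mul, h1] at h4
  rw [h4]
  ring

theorem bc_three {d : ℕ} {f : MvPolynomial (κα ⊕ κβ) ℂ} (h : HomE d f) (j : ℕ) (hj : d < j) :
    bcomp j f = 0 := by
  ext m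
  rw [coeff_zero]
  by_contra hm
  obtain ⟨h1, h2⟩ := bc_supp hm
  have h3 := bc_hom h h2
  rw [bc_degree, h1] at h3
  omega

theorem bc_sum {d : ℕ} {f : MvPolynomial (κα ⊕ κβ) ℂ} (h : HomE d f) :
    ∑ j ∈ Finset.range (d + 2), bcomp j f = f := by
  ext m
  rw [coeff_sum]
  simp only [bc_coeff]
  rw [Finset.sum_ite_eq]
  by_cases hm : coeff m f = 0
  · rw [hm, ite_self]
  · have h3 := bc_hom h hm
    rw [bc_degree] at h3
    rw [bc_weight, if_pos]
    rw [Finset.mem_range]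
    omega

theorem bc_four {d : ℕ} {f : MvPolynomial (κα ⊕ κβ) ℂ} (h : HomE d f) (p : κα → ℂ)
    (q : κβ → ℂ) : eval (Sum.elim p q) (bcomp 0 f) = eval (Sum.elim p 0) f := by
  conv_rhs => rw [← bc_sum h]
  rw [map_sum]
  have h1 : ∀ j, eval (Sum.elim p (0 : κβ → ℂ)) (bcomp j f) =
      0 ^ j * eval (Sum.elim p q) (bcomp j f) := by
    intro j
    have := bc_right f 0 p q j
    rwa [zero_smul] at this
  rw [Finset.sum_eq_single_of_mem 0 (by simp)]
  · rw [h1 0]; simp
  · intro j _ hj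
    rw [h1 j, zero_pow hj, zero_mul]

theorem bc_five {d : ℕ} {f : MvPolynomial (κα ⊕ κβ) ℂ} (h : HomE d f) (p : κα → ℂ)
    (q : κβ → ℂ) : eval (Sum.elim p q) (bcomp 1 f) = dpol f (Sum.elim p 0) (Sum.elim 0 q) := by
  have hF : ∀ t : ℂ, eval (Sum.elim p (t • q)) f =
      ∑ j ∈ Finset.range (d + 2), t ^ j * eval (Sum.elim p q) (bcomp j f) := by
    intro t
    conv_lhs => rw [← bc_sum h]
    rw [map_sum]
    exact Finset.sum_congr rfl fun j _ => bc_right f t p q j
  have hd1 : HasDerivAt (fun t : ℂ => eval (Sum.elim p (t • q)) f)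
      (dpol f (Sum.elim p ((0 : ℂ) • q)) (Sum.elim 0 q)) 0 := by
    apply hasDerivAt_eval f
    intro i
    cases i with
    | inl i =>
      simp only [Sum.elim_inl, Pi.zero_apply]
      exact hasDerivAt_const _ _
    | inr i =>
      simp only [Sum.elim_inr, Pi.smul_apply, smul_eq_mul]
      have := (hasDerivAt_id (0 : ℂ)).mul_const (q i)
      simpa using this
  have hd2 : HasDerivAt (fun t : ℂ => ∑ j ∈ Finset.range (d + 2),
      t ^ j * eval (Sum.elim p q) (bcomp j f))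
      (∑ j ∈ Finset.range (d + 2), ((j : ℂ) * 0 ^ (j - 1)) * eval (Sum.elim p q) (bcomp j f))
      0 := by
    apply HasDerivAt.fun_sum
    intro j _
    exact (hasDerivAt_pow j (0 : ℂ)).mul_const _
  have hd3 := hd1
  rw [funext hF] at hd3
  have := hd3.unique hd2
  rw [zero_smul] at this
  rw [this, Finset.sum_eq_single_of_mem 1 (by simp)]
  · simp
  · intro j _ hj
    by_cases h0 : j = 0
    · subst h0; simp
    · rw [zero_pow (by omega), mul_zero, zero_mul]

end Bc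

theorem st_BC : ST_BC := by
  intro κα κβ _ _ d ε f hf T hT
  refine ⟨fun x y p q j _ => bc_one hf.hom x y p q j, ?_, bc_three hf.hom,
    bc_four hf.hom, bc_five hf.hom⟩
  intro p q
  conv_lhs => rw [← bc_sum hf.hom]
  rw [map_sum]
  have h1 : ∑ k ∈ Finset.range (T + 1), eval (Sum.elim p q) (bcomp (2 * k + ε) f) =
      ∑ j ∈ (Finset.range (T + 1)).image (fun k => 2 * k + ε),
        eval (Sum.elim p q) (bcomp j f) := by
    rw [Finset.sum_image]
    intro a _ b _ hab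
    simp only at hab
    omega
  rw [h1]
  have h2 : ∀ j, j ∉ Finset.range (d + 2) → eval (Sum.elim p q) (bcomp j f) = 0 := by
    intro j hj
    rw [Finset.mem_range, not_lt] at hj
    rw [bc_three hf.hom j (by omega), map_zero]
  have h3 : ∀ j, j ∉ (Finset.range (T + 1)).image (fun k => 2 * k + ε) →
      eval (Sum.elim p q) (bcomp j f) = 0 := by
    intro j hj
    by_cases hjd : d < j
    · rw [bc_three hf.hom j hjd, map_zero]
    · rw [hf.par j, map_zero]
      intro hε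
      apply hj
      rw [Finset.mem_image]
      refine ⟨j / 2, ?_, ?_⟩
      · rw [Finset.mem_range]; omega
      · omega
  exact (Finset.sum_subset (Finset.subset_union_left (s₁ := Finset.range (d + 2))
      (s₂ := (Finset.range (T + 1)).image (fun k => 2 * k + ε))) (fun j _ hj => h2 j hj)).trans
    (Finset.sum_subset (Finset.subset_union_right (s₁ := Finset.range (d + 2))
      (s₂ := (Finset.range (T + 1)).image (fun k => 2 * k + ε))) (fun j _ hj => h3 j hj)).symm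

end Pool.Agent.Helper87.TC
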