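import Mathlib
import Pool.Agent.Helper87.TC.Lib

/-! Module EQUI: the linear map of the target which makes `Psi` equivariant. -/

set_option autoImplicit false

namespace Pool.Agent.Helper87.TC

open MvPolynomial Pool.Agent.Helper48.VMRT Pool.Agent.Helper87.VM
open scoped Kronecker Matrix

section Equi

variable {κ μ : Type}

/-- The third tensor power of a matrix. -/
def equiT (A : Matrix κ κ ℂ) : Matrix (Fin 3 → κ) (Fin 3 → κ) ℂ :=
  Matrix.of fun I J => ∏ j, A (I j) (J j)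

theorem equiT_apply (A : Matrix κ κ ℂ) (I J : Fin 3 → κ) :
    equiT A I J = ∏ j, A (I j) (J j) := rfl

theorem equiT_sum [Fintype κ] (F : Fin 3 → κ → ℂ) :
    ∑ J : Fin 3 → κ, ∏ j, F j (J j) = ∏ j, ∑ k, F j k := by
  classical
  rw [Finset.prod_univ_sum, Fintype.piFinset_univ]

theorem equiT_mul [Fintype κ] (A B : Matrix κ κ ℂ) : equiT (A * B) = equiT A * equiT B := by
  ext I J
  rw [Matrix.mul_apply]
  simp only [equiT_apply, Matrix.mul_apply, ← Finset.prod_mul_distrib]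
  rw [equiT_sum (fun j k => A (I j) k * B k (J j))]

theorem equiT_smul_one [DecidableEq κ] (c : ℂ) :
    equiT (c • (1 : Matrix κ κ ℂ)) = c ^ 3 • (1 : Matrix (Fin 3 → κ) (Fin 3 → κ) ℂ) := by
  ext I J
  rw [equiT_apply]
  by_cases h : I = J
  · subst h
    simp [Matrix.smul_apply]
  · rw [Matrix.smul_apply, Matrix.one_apply_ne h, smul_zero]
    obtain ⟨j, hj⟩ := Function.ne_iff.1 h
    apply Finset.prod_eq_zero (Finset.mem_univ j)
    rw [Matrix.smul_apply, Matrix.one_apply_ne hj, smul_zero]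

theorem equiT_mulVec [Fintype κ] (A : Matrix κ κ ℂ) (p : κ → ℂ) :
    equiT A *ᵥ (fun I => ∏ j, p (I j)) = fun I => ∏ j, (A *ᵥ p) (I j) := by
  funext I
  simp only [Matrix.mulVec, dotProduct, equiT_apply, ← Finset.prod_mul_distrib]
  rw [equiT_sum (fun j k => A (I j) k * p k)]

theorem equi_kron [Fintype κ] [Fintype μ] (A : Matrix κ κ ℂ) (B : Matrix μ μ ℂ) (p : κ → ℂ)
    (q : μ → ℂ) : (A ⊗ₖ B) *ᵥ (fun i => p i.1 * q i.2) =
      fun i => (A *ᵥ p) i.1 * (B *ᵥ q) i.2 := by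
  funext i
  obtain ⟨a, b⟩ := i
  simp only [Matrix.mulVec, dotProduct]
  rw [Fintype.sum_prod_type, Finset.sum_mul_sum]
  refine Finset.sum_congr rfl fun i _ => Finset.sum_congr rfl fun j _ => ?_
  rw [Matrix.kronecker_apply]
  ring

variable {κα κβ : Type}

/-- The matrix on the target. -/
def equiM (A : Matrix κα κα ℂ) (B : Matrix κβ κβ ℂ) : Matrix (KK κα κβ) (KK κα κβ) ℂ :=
  Matrix.fromBlocks (equiT A ⊗ₖ B) 0 0 (A ⊗ₖ equiT B)

theorem equiM_mul [Fintype κα] [Fintype κβ] (A A' : Matrix κα κα ℂ) (B B' : Matrix κβ κβ ℂ) :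
    equiM (A * A') (B * B') = equiM A B * equiM A' B' := by
  unfold equiM
  rw [Matrix.fromBlocks_multiply, equiT_mul, equiT_mul, Matrix.mul_kronecker_mul,
    Matrix.mul_kronecker_mul]
  simp

theorem equiM_smul [DecidableEq κα] [DecidableEq κβ] (c d : ℂ) (h : c ^ 3 * d = c * d ^ 3) :
    equiM (c • (1 : Matrix κα κα ℂ)) (d • (1 : Matrix κβ κβ ℂ)) = (c ^ 3 * d) • 1 := by
  unfold equiM
  rw [equiT_smul_one, equiT_smul_one, Matrix.smul_kronecker, Matrix.kronecker_smul,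
    Matrix.smul_kronecker, Matrix.kronecker_smul, Matrix.one_kronecker_one,
    Matrix.one_kronecker_one, smul_smul, smul_smul, ← h, ← Matrix.fromBlocks_one,
    Matrix.fromBlocks_smul]
  simp

theorem equiM_pow [Fintype κα] [Fintype κβ] [DecidableEq κα] [DecidableEq κβ]
    (A : Matrix κα κα ℂ) (B : Matrix κβ κβ ℂ) (K : ℕ) :
    equiM A B ^ K = equiM (A ^ K) (B ^ K) := by
  induction K with
  | zero =>
    rw [pow_zero, pow_zero, pow_zero]
    have := equiM_smul (κα := κα) (κβ := κβ) 1 1 (by norm_num)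
    rw [one_smul, one_smul] at this
    rw [this]
    simp
  | succ K ih => rw [pow_succ, ih, pow_succ A, pow_succ B, equiM_mul]

end Equi

theorem st_EQUI : ST_EQUI := by
  classical
  intro κα κβ _ _ γα γβ K δ hα hβ
  set A := LinearMap.toMatrixAlgEquiv' γα with hA
  set B := LinearMap.toMatrixAlgEquiv' γβ with hB
  have hAv : ∀ p, A *ᵥ p = γα p := by
    intro p
    rw [← Matrix.toLinAlgEquiv'_apply, hA, Matrix.toLinAlgEquiv'_toMatrixAlgEquiv']
  have hBv : ∀ p, B *ᵥ p = γβ p := by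
    intro p
    rw [← Matrix.toLinAlgEquiv'_apply, hB, Matrix.toLinAlgEquiv'_toMatrixAlgEquiv']
  have hAK : A ^ K = δ • (1 : Matrix κα κα ℂ) := by
    rw [hA, ← map_pow, show γα ^ K = δ • (1 : (κα → ℂ) →ₗ[ℂ] (κα → ℂ)) from
      LinearMap.ext fun p => hα p, map_smul, map_one]
  have hBK : B ^ K = (-δ) • (1 : Matrix κβ κβ ℂ) := by
    rw [hB, ← map_pow, show γβ ^ K = (-δ) • (1 : (κβ → ℂ) →ₗ[ℂ] (κβ → ℂ)) from
      LinearMap.ext fun p => hβ p, map_smul, map_one]
  have hv : ∀ w, Matrix.toLinAlgEquiv' (equiM A B) w =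
      Sum.elim ((equiT A ⊗ₖ B) *ᵥ (w ∘ Sum.inl)) ((A ⊗ₖ equiT B) *ᵥ (w ∘ Sum.inr)) := by
    intro w
    rw [Matrix.toLinAlgEquiv'_apply]
    unfold equiM
    rw [Matrix.fromBlocks_mulVec]
    simp
  refine ⟨Matrix.toLinAlgEquiv' (equiM A B), ?_, ?_, ?_, ?_⟩
  · intro p q
    rw [hv]
    have h1 : (ev Psi (Sum.elim p q) : KK κα κβ → ℂ) ∘ Sum.inl =
        fun i => (fun I : Fin 3 → κα => ∏ j, p (I j)) i.1 * q i.2 := by
      funext i
      simp [ev, Psi, Fin.prod_univ_three]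
    have h2 : (ev Psi (Sum.elim p q) : KK κα κβ → ℂ) ∘ Sum.inr =
        fun i => p i.1 * (fun I : Fin 3 → κβ => ∏ j, q (I j)) i.2 := by
      funext i
      simp [ev, Psi, Fin.prod_univ_three]
    have e1 := equi_kron (equiT A) B (fun I : Fin 3 → κα => ∏ j, p (I j)) q
    have e2 := equi_kron A (equiT B) p (fun I : Fin 3 → κβ => ∏ j, q (I j))
    rw [equiT_mulVec, hAv, hBv] at e1
    rw [equiT_mulVec, hAv, hBv] at e2
    rw [h1, h2, e1, e2]
    funext i
    cases i with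
    | inl i => simp [ev, Psi, Fin.prod_univ_three]
    | inr i => simp [ev, Psi, Fin.prod_univ_three]
  · intro w hw a
    rw [hv]
    have h0 : w ∘ Sum.inl = 0 := by
      funext i
      exact hw i
    rw [h0, Matrix.mulVec_zero]
    rfl
  · intro w hw a
    rw [hv]
    have h0 : w ∘ Sum.inr = 0 := by
      funext i
      exact hw i
    rw [h0, Matrix.mulVec_zero]
    rfl
  · intro w
    rw [← map_pow, equiM_pow, hAK, hBK, equiM_smul _ _ (by ring), map_smul, map_one]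
    show (δ ^ 3 * -δ) • w = (-δ ^ 4) • w
    congr 1
    ring

end Pool.Agent.Helper87.TC
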