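import Mathlib
import Pool.Agent.Helper87.TC.Lib

/-! Module PRIM: proportional vectors of binary forms without common zeros. -/

set_option autoImplicit false

namespace Pool.Agent.Helper87.TC

open MvPolynomial Pool.Agent.Helper48.VMRT Pool.Agent.Helper87.VM

theorem prim_bezout {κ : Type} [Fintype κ] {d : ℕ} {p : κ → Polynomial ℂ} (h : Mor d p) :
    ∃ r : κ → Polynomial ℂ, ∑ i, r i * p i = 1 := by
  have h1 : (1 : Polynomial ℂ) ∈ Ideal.span (Set.range p) := by
    obtain ⟨g, hg⟩ := (IsPrincipalIdealRing.principal (Ideal.span (Set.range p))).principal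
    have hdvd : ∀ i, g ∣ p i := by
      intro i
      have : p i ∈ Ideal.span (Set.range p) := Ideal.subset_span ⟨i, rfl⟩
      rw [hg, Submodule.mem_span_singleton] at this
      obtain ⟨a, ha⟩ := this
      exact ⟨a, by rw [← ha, smul_eq_mul, mul_comm]⟩
    have hu : IsUnit g := by
      by_contra hnu
      have hroot : ∃ z : ℂ, g.IsRoot z := by
        by_cases hg0 : g = 0
        · exact ⟨0, by rw [hg0]; simp [Polynomial.IsRoot]⟩
        · exact IsAlgClosed.exists_root g (fun h0 => hnu (Polynomial.isUnit_iff_degree_eq_zero.2 h0))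
      obtain ⟨z, hz⟩ := hroot
      apply h.ne 1 z (by simp)
      funext i
      simp only [hevv, Pi.zero_apply]
      rw [hev_one (h.deg i)]
      obtain ⟨a, ha⟩ := hdvd i
      rw [ha, Polynomial.eval_mul, hz.eq_zero, zero_mul]
    rw [hg]
    rw [Submodule.mem_span_singleton]
    obtain ⟨u, rfl⟩ := hu
    exact ⟨(u⁻¹ : (Polynomial ℂ)ˣ), by rw [smul_eq_mul]; exact u.inv_mul⟩
  rw [Ideal.mem_span_range_iff_exists_fun] at h1
  exact h1

theorem prim_half {κ : Type} [Fintype κ] {d : ℕ} {p q : κ → Polynomial ℂ} (hp : Mor d p)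
    (h : ∀ i j, p i * q j = p j * q i) : ∃ A : Polynomial ℂ, ∀ j, q j = p j * A := by
  obtain ⟨r, hr⟩ := prim_bezout hp
  refine ⟨∑ i, r i * q i, fun j => ?_⟩
  calc q j = (∑ i, r i * p i) * q j := by rw [hr, one_mul]
    _ = ∑ i, p j * (r i * q i) := by
        rw [Finset.sum_mul]
        refine Finset.sum_congr rfl fun i _ => ?_
        rw [mul_assoc, h i j]; ring
    _ = p j * ∑ i, r i * q i := by rw [Finset.mul_sum]

theorem prim_deg {κ : Type} {d e : ℕ} {p q : κ → Polynomial ℂ} (hp : Mor d p) (hq : Mor e q)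
    (h : ∀ i, (q i).natDegree = (p i).natDegree) : e ≤ d := by
  by_contra hlt
  rw [not_le] at hlt
  apply hq.ne 0 1 (by simp)
  funext i
  simp only [hevv, Pi.zero_apply]
  rw [hev_zero_left, Polynomial.coeff_eq_zero_of_natDegree_lt, zero_mul]
  rw [h i]
  exact lt_of_le_of_lt (hp.deg i) hlt

theorem st_PRIM : ST_PRIM := by
  intro κ _ d e p q hp hq h
  have hpol : ∀ i j, p i * q j = p j * q i := by
    intro i j
    apply Polynomial.funext
    intro t
    obtain ⟨a, ha⟩ := h 1 t (by simp)
    have h1 : ∀ k, (p k).eval t = a * (q k).eval t := by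
      intro k
      have := congrFun ha k
      simp only [hevv, Pi.smul_apply, smul_eq_mul] at this
      rwa [hev_one (hp.deg k), hev_one (hq.deg k)] at this
    rw [Polynomial.eval_mul, Polynomial.eval_mul, h1 i, h1 j]; ring
  obtain ⟨A, hA⟩ := prim_half hp hpol
  have hpol2 : ∀ i j, q i * p j = q j * p i := by
    intro i j
    have := hpol i j
    rw [mul_comm (q i), mul_comm (q j)]
    exact this.symm
  obtain ⟨B, hB⟩ := prim_half hq hpol2
  have hex : ∃ j, q j ≠ 0 := by
    by_contra hn
    push Not at hn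
    apply hq.ne 1 0 (by simp)
    funext i
    simp [hevv, hn i]
  obtain ⟨j, hj⟩ := hex
  have hAB : B * A = 1 := by
    have h1 : q j * (B * A) = q j * 1 := by
      rw [← mul_assoc, ← hB, ← hA, mul_one]
    exact mul_left_cancel₀ hj h1
  have hBu : IsUnit B := IsUnit.of_mul_eq_one _ hAB
  obtain ⟨b, hb, hbB⟩ := Polynomial.isUnit_iff.1 hBu
  have hb0 : b ≠ 0 := hb.ne_zero
  have hfin : ∀ i, p i = Polynomial.C b * q i := by
    intro i
    rw [hB i, ← hbB, mul_comm]
  have hdeg : ∀ i, (q i).natDegree = (p i).natDegree := by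
    intro i
    rw [hfin i, Polynomial.natDegree_C_mul hb0]
  refine ⟨le_antisymm (prim_deg hq hp fun i => (hdeg i).symm) (prim_deg hp hq hdeg), b, hb0,
    hfin⟩

end Pool.Agent.Helper87.TC
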