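import Mathlib
import Pool.Agent.Helper27.TC.BC

/-! Module PURE: the ideal of an adapted cone is spanned by pure forms. -/

set_option autoImplicit false

namespace Pool.Agent.Helper87.TC

open MvPolynomial Pool.Agent.Helper48.VMRT Pool.Agent.Helper87.VM

section PureSec

variable {κα κβ : Type}

/-- The part of parity `ε`. -/
noncomputable def pureP (d ε : ℕ) (f : MvPolynomial (κα ⊕ κβ) ℂ) : MvPolynomial (κα ⊕ κβ) ℂ :=
  ∑ j ∈ (Finset.range (d + 2)).filter (fun j => j % 2 = ε), bcomp j f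

theorem pure_bb (i j : ℕ) (f : MvPolynomial (κα ⊕ κβ) ℂ) :
    bcomp i (bcomp j f) = if i = j then bcomp j f else 0 := by
  ext m
  rw [bc_coeff, bc_coeff]
  by_cases hij : i = j
  · subst hij
    rw [if_pos rfl, bc_coeff]
    split_ifs <;> rfl
  · rw [if_neg hij, coeff_zero]
    split_ifs with h1 h2
    · exact absurd (h1.symm.trans h2) hij
    · rfl
    · rfl

variable [Fintype κα] [Fintype κβ]

theorem pure_homE {d : ℕ} {f : MvPolynomial (κα ⊕ κβ) ℂ} (h : HomE d f) (j : ℕ) :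
    HomE d (bcomp j f) := by
  apply homE_of_isHomogeneous
  intro m hm
  exact isHomogeneous_of_homE h (bc_supp hm).2

theorem pure_pure {d ε : ℕ} {f : MvPolynomial (κα ⊕ κβ) ℂ} (h : HomE d f) (hε : ε ≤ 1) :
    Pure d ε (pureP d ε f) := by
  refine ⟨HomE.sum fun j _ => pure_homE h j, hε, ?_⟩
  intro i hi
  unfold pureP
  have e : bcomp i (∑ j ∈ (Finset.range (d + 2)).filter (fun j => j % 2 = ε), bcomp j f) =
      ∑ j ∈ (Finset.range (d + 2)).filter (fun j => j % 2 = ε), bcomp i (bcomp j f) := by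
    unfold bcomp
    rw [map_sum]
  rw [e]
  apply Finset.sum_eq_zero
  intro j hj
  rw [pure_bb, if_neg]
  intro hij
  subst hij
  exact hi (Finset.mem_filter.1 hj).2

theorem pure_sum {d : ℕ} {f : MvPolynomial (κα ⊕ κβ) ℂ} (h : HomE d f) :
    pureP d 0 f + pureP d 1 f = f := by
  conv_rhs => rw [← bc_sum h]
  unfold pureP
  rw [← Finset.sum_filter_add_sum_filter_not (Finset.range (d + 2)) (fun j => j % 2 = 0)]
  congr 1
  apply Finset.sum_congr
  · ext j
    simp only [Finset.mem_filter]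
    constructor
    · rintro ⟨h1, h2⟩; exact ⟨h1, by omega⟩
    · rintro ⟨h1, h2⟩; exact ⟨h1, by omega⟩
  · intro j _; rfl

theorem pure_sg (f : MvPolynomial (κα ⊕ κβ) ℂ) (d ε : ℕ) (hε : ε ≤ 1) (y : κα ⊕ κβ → ℂ) :
    eval (sg y) (pureP d ε f) = (-1) ^ ε * eval y (pureP d ε f) := by
  unfold pureP
  rw [map_sum, map_sum, Finset.mul_sum]
  refine Finset.sum_congr rfl fun j hj => ?_
  have h1 := bc_right f (-1) (pl y) (qr y) j
  have h2 : (Sum.elim (pl y) (qr y) : κα ⊕ κβ → ℂ) = y := by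
    funext i; cases i <;> rfl
  rw [h2, neg_one_smul] at h1
  unfold sg
  rw [h1]
  have h3 : j % 2 = ε := (Finset.mem_filter.1 hj).2
  congr 1
  rw [← h3, ← neg_one_pow_eq_pow_mod_two]

theorem pure_mem {S : Set (κα ⊕ κβ → ℂ)} (hS : AdCone S) {d ε : ℕ} (hε : ε ≤ 1)
    {f : MvPolynomial (κα ⊕ κβ) ℂ} (h : HomE d f) (hf : f ∈ vanishingIdeal ℂ S) :
    pureP d ε f ∈ vanishingIdeal ℂ S := by
  rw [mem_vI]
  intro y hy
  have h1 := mem_vI.1 hf y hy
  have h2 := mem_vI.1 hf (sg y) (hS.inv y hy)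
  rw [← pure_sum h, map_add] at h1 h2
  rw [pure_sg f d 0 (by omega), pure_sg f d 1 le_rfl] at h2
  rw [pow_zero, pow_one, one_mul] at h2
  have h3 : eval y (pureP d 0 f) = 0 := by linear_combination h1 / 2 + h2 / 2
  have h4 : eval y (pureP d 1 f) = 0 := by linear_combination h1 / 2 - h2 / 2
  interval_cases ε
  · exact h3
  · exact h4

end PureSec

theorem st_PURE : ST_PURE := by
  intro κα κβ _ _ S hS
  constructor
  · intro y hy
    apply mem_of_homE hS.closed hS.cone
    intro k p hp hpS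
    rw [← pure_sum hp, map_add, hy k 0 _ (pure_mem hS (by omega) hp hpS)
      (pure_pure hp (by omega)), hy k 1 _ (pure_mem hS le_rfl hp hpS) (pure_pure hp le_rfl),
      add_zero]
  · intro y v hv
    apply mem_tsp_of_homE hS.cone
    intro k p hp hpS
    rw [← pure_sum hp, dpol_add, hv k 0 _ (pure_mem hS (by omega) hp hpS)
      (pure_pure hp (by omega)), hv k 1 _ (pure_mem hS le_rfl hp hpS) (pure_pure hp le_rfl),
      add_zero]

end Pool.Agent.Helper87.TC
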