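import Mathlib
import Pool.Agent.Helper87.TC.Lib

/-! Module RCOMP: composition of resolved quotients. -/

set_option autoImplicit false

namespace Pool.Agent.Helper87.TC

open MvPolynomial Pool.Agent.Helper48.VMRT Pool.Agent.Helper87.VM

theorem rcomp_ev {κ μ ν : Type} (E₁ : μ → MvPolynomial κ ℂ) (E₂ : ν → MvPolynomial μ ℂ)
    (y : κ → ℂ) : ev (fun i => aeval E₁ (E₂ i)) y = ev E₂ (ev E₁ y) := by
  funext i
  exact eval_aeval E₁ (E₂ i) y

theorem rcomp_dev {κ μ ν : Type} [Fintype κ] [Fintype μ] (E₁ : μ → MvPolynomial κ ℂ)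
    (E₂ : ν → MvPolynomial μ ℂ) (y v : κ → ℂ) :
    dev (fun i => aeval E₁ (E₂ i)) y v = dev E₂ (ev E₁ y) (dev E₁ y v) := by
  funext i
  exact dpol_aeval E₁ (E₂ i) y v

theorem rcomp_evpow {κ μ : Type} (E₁ : μ → MvPolynomial κ ℂ)
    (γ : (κ → ℂ) →ₗ[ℂ] (κ → ℂ)) (γ₁ : (μ → ℂ) →ₗ[ℂ] (μ → ℂ))
    (h : ∀ y, ev E₁ (γ y) = γ₁ (ev E₁ y)) (i : ℕ) (y : κ → ℂ) :
    ev E₁ ((γ ^ i) y) = (γ₁ ^ i) (ev E₁ y) := by
  induction i with
  | zero => simp
  | succ i ih => rw [pow_succ', pow_succ', Module.End.mul_apply, Module.End.mul_apply, h, ih]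

theorem rcomp_mempow {κ : Type} (S : Set (κ → ℂ)) (γ : (κ → ℂ) →ₗ[ℂ] (κ → ℂ))
    (h : ∀ y ∈ S, γ y ∈ S) (i : ℕ) (y : κ → ℂ) (hy : y ∈ S) : (γ ^ i) y ∈ S := by
  induction i with
  | zero => simpa using hy
  | succ i ih => rw [pow_succ', Module.End.mul_apply]; exact h _ ih

theorem rcomp_scalpow {κ : Type} (γ : (κ → ℂ) →ₗ[ℂ] (κ → ℂ)) (r : ℕ) (ε : ℂ)
    (h : ∀ y, (γ ^ r) y = ε • y) (i : ℕ) (y : κ → ℂ) : (γ ^ (r * i)) y = ε ^ i • y := by
  induction i with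
  | zero => simp
  | succ i ih =>
    rw [Nat.mul_succ, pow_add, Module.End.mul_apply, h, map_smul, ih, smul_smul, pow_succ']

theorem rcomp_notD {κ : Type} [Fintype κ] {n r : ℕ} {Y D : Set (κ → ℂ)}
    {γ : (κ → ℂ) →ₗ[ℂ] (κ → ℂ)} {ε : ℂ} (hr : 1 ≤ r) (hI : Inp n r Y D γ ε) (i : ℕ)
    (y : κ → ℂ) (hy : y ∉ D) : (γ ^ i) y ∉ D := by
  intro hD
  apply hy
  have h1 : (γ ^ (r * i)) y ∈ D := by
    have e : r * i = (r - 1) * i + i := by
      obtain ⟨s, rfl⟩ : ∃ s, r = s + 1 := ⟨r - 1, by omega⟩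
      rw [Nat.add_sub_cancel]; ring
    rw [e, pow_add, Module.End.mul_apply]
    exact rcomp_mempow D γ hI.dact _ _ hD
  rw [rcomp_scalpow γ r ε hI.pow] at h1
  have h2 := hI.dcone (ε ^ i)⁻¹ _ h1
  rwa [smul_smul, inv_mul_cancel₀ (pow_ne_zero _ hI.ne), one_smul] at h2

theorem st_RCOMP : ST_RCOMP := by
  intro κ μ ν _ _ _ n m₁ m₂ r Y D γ ε E₁ Y₁ D₁ γ₁ E₂ X DX γ₂ hr hI h1 h2
  exact
    { hom := by
        intro i a y
        rw [eval_aeval, eval_aeval]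
        have e : ev E₁ (a • y) = a ^ m₁ • ev E₁ y := funext fun j => h1.hom j a y
        rw [e, h2.hom i, ← pow_mul, mul_comm m₁ m₂]
      pm := h2.pm
      img := fun y hy => by rw [rcomp_ev]; exact h2.img _ (h1.img y hy)
      dcl := h2.dcl
      dcone := h2.dcone
      on := fun y hy => by rw [rcomp_ev]; exact h2.on _ (h1.on y hy)
      off := fun y hy hn => by rw [rcomp_ev]; exact h2.off _ (h1.img y hy) (h1.off y hy hn)
      surj := fun x hx hn => by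
        obtain ⟨y1, hy1, hn1, rfl⟩ := h2.surj x hx hn
        obtain ⟨y, hy, hny, rfl⟩ := h1.surj y1 hy1 hn1
        exact ⟨y, hy, hny, (rcomp_ev E₁ E₂ y).symm⟩
      sep := fun y hy hn y' hy' hn' a h => by
        rw [rcomp_ev, rcomp_ev] at h
        obtain ⟨i, c, hc⟩ := h2.sep _ (h1.img y hy) (h1.off y hy hn) _ (h1.img y' hy')
          (h1.off y' hy' hn') a h
        rw [← rcomp_evpow E₁ γ γ₁ h1.equi] at hc
        obtain ⟨j, c', hc'⟩ := h1.sep _ (rcomp_mempow Y γ hI.act i y hy)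
          (rcomp_notD hr hI i y hn) y' hy' hn' c hc
        exact ⟨j + i, c', by rw [pow_add, Module.End.mul_apply]; exact hc'⟩
      equi := fun y => by rw [rcomp_ev, rcomp_ev, h1.equi, h2.equi]
      imm := fun y hy hn v hv => by
        rw [rcomp_dev] at hv
        exact h1.imm y hy hn v (h2.imm _ (h1.img y hy) (h1.off y hy hn) _ hv)
      tan := fun y hy hn v hv => by
        rw [rcomp_ev] at hv
        obtain ⟨u1, hu1, rfl⟩ := h2.tan _ (h1.img y hy) (h1.off y hy hn) v hv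
        obtain ⟨u, hu, rfl⟩ := h1.tan y hy hn u1 hu1
        exact ⟨u, hu, (rcomp_dev E₁ E₂ y u).symm⟩
      lift := fun e c hM hX hD => by
        obtain ⟨e1, y1, rfl, hM1, hY1, hD1, hE1⟩ := h2.lift e c hM hX hD
        obtain ⟨e', y, rfl, hM', hY', hD', hE'⟩ := h1.lift e1 y1 hM1 hY1 hD1
        refine ⟨e', y, by ring, hM', hY', hD', fun s t => ?_⟩
        rw [rcomp_ev, hE1, hE']
      sets := fun S hS hc hSY hg => by
        obtain ⟨S1, c1, k1, s1, g1, f1⟩ := h1.sets S hS hc hSY hg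
        obtain ⟨S2, c2, k2, s2, g2, f2⟩ := h2.sets S1 c1 k1 s1 g1
        refine ⟨S2, c2, k2, s2, g2, fun y hy hn => ?_⟩
        rw [rcomp_ev, f2 _ (h1.img y hy) (h1.off y hy hn), f1 y hy hn] }

end Pool.Agent.Helper87.TC
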