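import Mathlib
import Pool.Agent.Helper87.TC.Lib

/-! Module SEPP: the map `Psi` separates orbits and is immersive outside the fixed points. -/

set_option autoImplicit false

namespace Pool.Agent.Helper87.TC

open MvPolynomial Pool.Agent.Helper48.VMRT Pool.Agent.Helper87.VM

theorem sepp_inl {κα κβ : Type} (p : κα → ℂ) (q : κβ → ℂ) (b c : ℂ) (i : κα) (l : κβ) :
    Theta p q b c (Sum.inl (fun _ => i, l)) = c * (p i ^ 3) * q l := by
  simp only [Theta, Sum.elim_inl]; ring

theorem sepp_inr {κα κβ : Type} (p : κα → ℂ) (q : κβ → ℂ) (b c : ℂ) (i : κα) (l : κβ) :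
    Theta p q b c (Sum.inr (i, fun _ => l)) = b * p i * (q l ^ 3) := by
  simp only [Theta, Sum.elim_inr]; ring

theorem sepp_ne {κα κβ : Type} (y : κα ⊕ κβ → ℂ) (h1 : pl y ≠ 0) (h2 : qr y ≠ 0) :
    ev Psi y ≠ 0 := by
  obtain ⟨i, hi⟩ := Function.ne_iff.1 h1
  obtain ⟨l, hl⟩ := Function.ne_iff.1 h2
  intro h
  have := congrFun h (Sum.inl (fun _ => i, l))
  rw [ev_Psi, sepp_inl, Pi.zero_apply, one_mul] at this
  exact mul_ne_zero (pow_ne_zero 3 hi) hl this

theorem st_SEPP : ST_SEPP := by
  intro κα κβ _ _ y hp hq
  refine ⟨sepp_ne y hp hq, ?_, ?_⟩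
  · intro y' a hp' hq' h
    have ha : a ≠ 0 := by
      rintro rfl
      rw [zero_smul] at h
      exact sepp_ne y' hp' hq' h
    obtain ⟨i, hi⟩ := Function.ne_iff.1 hp'
    obtain ⟨l, hl⟩ := Function.ne_iff.1 hq'
    rw [Pi.zero_apply] at hi hl
    rw [ev_Psi, ev_Psi, smul_Theta] at h
    have e1 : ∀ k m, pl y' k ^ 3 * qr y' m = a * (pl y k ^ 3) * qr y m := by
      intro k m
      have := congrFun h (Sum.inl (fun _ => k, m))
      rw [sepp_inl, sepp_inl] at this
      linear_combination this
    have e2 : ∀ k m, pl y' k * qr y' m ^ 3 = a * pl y k * (qr y m ^ 3) := by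
      intro k m
      have := congrFun h (Sum.inr (k, fun _ => m))
      rw [sepp_inr, sepp_inr] at this
      linear_combination this
    have hi' : pl y i ≠ 0 := by
      intro h0
      have := e1 i l
      rw [h0] at this
      have h3 : pl y' i ^ 3 * qr y' l = 0 := by rw [this]; ring
      exact mul_ne_zero (pow_ne_zero 3 hi) hl h3
    have hl' : qr y l ≠ 0 := by
      intro h0
      have := e1 i l
      rw [h0] at this
      have h3 : pl y' i ^ 3 * qr y' l = 0 := by rw [this]; ring
      exact mul_ne_zero (pow_ne_zero 3 hi) hl h3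
    obtain ⟨m, hm⟩ : ∃ m : ℂ, ∀ k, qr y' k = m * qr y k :=
      ⟨a * pl y i ^ 3 / pl y' i ^ 3, fun k => by
        have := e1 i k
        field_simp
        linear_combination this⟩
    obtain ⟨r, hr⟩ : ∃ r : ℂ, ∀ k, pl y' k = r * pl y k :=
      ⟨a * qr y l ^ 3 / qr y' l ^ 3, fun k => by
        have := e2 k l
        field_simp
        linear_combination this⟩
    have hr0 : r ≠ 0 := by
      rintro rfl
      exact hi (by rw [hr, zero_mul])
    have hm0 : m ≠ 0 := by
      rintro rfl
      exact hl (by rw [hm, zero_mul])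
    have h3 : r ^ 3 * m = a := by
      have := e1 i l
      rw [hr, hm] at this
      have h4 : (r ^ 3 * m - a) * (pl y i ^ 3 * qr y l) = 0 := by linear_combination this
      rcases mul_eq_zero.1 h4 with h5 | h5
      · exact sub_eq_zero.1 h5
      · exact absurd h5 (mul_ne_zero (pow_ne_zero 3 hi') hl')
    have h4 : r * m ^ 3 = a := by
      have := e2 i l
      rw [hr, hm] at this
      have h4 : (r * m ^ 3 - a) * (pl y i * qr y l ^ 3) = 0 := by linear_combination this
      rcases mul_eq_zero.1 h4 with h5 | h5
      · exact sub_eq_zero.1 h5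
      · exact absurd h5 (mul_ne_zero hi' (pow_ne_zero 3 hl'))
    have h5 : (m - r) * (m + r) = 0 := by
      have h6 : (r * m) * ((m - r) * (m + r)) = 0 := by linear_combination h4 - h3
      rcases mul_eq_zero.1 h6 with h7 | h7
      · exact absurd h7 (mul_ne_zero hr0 hm0)
      · exact h7
    refine ⟨r, ?_⟩
    rcases mul_eq_zero.1 h5 with h6 | h6
    · left
      have h7 : m = r := sub_eq_zero.1 h6
      funext k
      rcases k with k | k
      · exact hr k
      · have := hm k
        rw [h7] at this
        exact this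
    · right
      have h7 : m = -r := by linear_combination h6
      funext k
      rcases k with k | k
      · exact hr k
      · have := hm k
        rw [h7] at this
        change qr y' k = r * (-(qr y)) k
        rw [this, Pi.neg_apply]; ring
  · intro v hv
    obtain ⟨i, hi⟩ := Function.ne_iff.1 hp
    obtain ⟨l, hl⟩ := Function.ne_iff.1 hq
    rw [Pi.zero_apply] at hi hl
    rw [dev_Psi] at hv
    have e1 : ∀ k m, 3 * pl v k * pl y k ^ 2 * qr y m + pl y k ^ 3 * qr v m = 0 := by
      intro k m
      have := congrFun hv (Sum.inl (fun _ => k, m))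
      simp only [DTh, Sum.elim_inl, Pi.zero_apply] at this
      linear_combination this
    have e2 : ∀ k m, pl v k * qr y m ^ 3 + 3 * pl y k * (qr v m * qr y m ^ 2) = 0 := by
      intro k m
      have := congrFun hv (Sum.inr (k, fun _ => m))
      simp only [DTh, Sum.elim_inr, Pi.zero_apply] at this
      linear_combination this
    obtain ⟨r, hr⟩ : ∃ r : ℂ, pl v i = r * pl y i := ⟨pl v i / pl y i, by field_simp⟩
    have h1 : ∀ m, qr v m = -3 * r * qr y m := by
      intro m
      have := e1 i m
      rw [hr] at this
      have h2 : pl y i ^ 3 * (qr v m + 3 * r * qr y m) = 0 := by linear_combination this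
      rcases mul_eq_zero.1 h2 with h3 | h3
      · exact absurd h3 (pow_ne_zero 3 hi)
      · linear_combination h3
    have h2 : ∀ k, pl v k = 9 * r * pl y k := by
      intro k
      have := e2 k l
      rw [h1] at this
      have h2 : qr y l ^ 3 * (pl v k - 9 * r * pl y k) = 0 := by linear_combination this
      rcases mul_eq_zero.1 h2 with h3 | h3
      · exact absurd h3 (pow_ne_zero 3 hl)
      · linear_combination h3
    have h3 : r = 0 := by
      have h4 := h2 i
      rw [hr] at h4
      have h5 : r * pl y i = 0 := by linear_combination (-1 / 8) * h4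
      rcases mul_eq_zero.1 h5 with h6 | h6
      · exact h6
      · exact absurd h6 hi
    funext k
    rcases k with k | k
    · have := h2 k
      rw [h3] at this
      change pl v k = 0
      rw [this]; ring
    · have := h1 k
      rw [h3] at this
      change qr v k = 0
      rw [this]; ring

end Pool.Agent.Helper87.TC
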