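import Mathlib
import Pool.Agent.Helper87.TC.Lib

/-! Module TPM: the tangent space at a fixed point splits. -/

set_option autoImplicit false

namespace Pool.Agent.Helper87.TC

open MvPolynomial Pool.Agent.Helper48.VMRT Pool.Agent.Helper87.VM

/-- `(p, 0)` as a linear map. -/
def tpmL (κα κβ : Type) : (κα → ℂ) →ₗ[ℂ] (κα ⊕ κβ → ℂ) where
  toFun p := Sum.elim p 0
  map_add' p p' := by funext i; cases i <;> simp
  map_smul' a p := by funext i; cases i <;> simp

/-- `(0, q)` as a linear map. -/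
def tpmR (κα κβ : Type) : (κβ → ℂ) →ₗ[ℂ] (κα ⊕ κβ → ℂ) where
  toFun q := Sum.elim 0 q
  map_add' p p' := by funext i; cases i <;> simp
  map_smul' a p := by funext i; cases i <;> simp

/-- The involution as a linear map. -/
def tpmS (κα κβ : Type) : (κα ⊕ κβ → ℂ) →ₗ[ℂ] (κα ⊕ κβ → ℂ) where
  toFun y := sg y
  map_add' p p' := by
    funext i
    cases i with
    | inl i => rfl
    | inr i => simp [sg, qr]; ring
  map_smul' a p := by
    funext i
    cases i with
    | inl i => rfl
    | inr i => simp [sg, qr]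

theorem st_TPM : ST_TPM := by
  intro κα κβ _ _ n Y hP hA p hp hpY
  set x : κα ⊕ κβ → ℂ := Sum.elim p 0 with hx
  have hsx : sg x = x := by
    funext i
    cases i with
    | inl i => rfl
    | inr i => simp [sg, qr, hx]
  have hS : ∀ v ∈ tsp Y x, sg v ∈ tsp Y x := by
    intro v hv
    have h := map_mem_tsp (tpmS κα κβ) (fun y hy => hA.inv y hy) hv
    change sg v ∈ tsp Y (sg x) at h
    rwa [hsx] at h
  have hl : ∀ v ∈ tsp Y x, (Sum.elim (pl v) 0 : κα ⊕ κβ → ℂ) ∈ tsp Y x := by
    intro v hv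
    have e : (Sum.elim (pl v) 0 : κα ⊕ κβ → ℂ) = (2⁻¹ : ℂ) • (v + sg v) := by
      funext i
      cases i with
      | inl i => simp [sg, pl]; ring
      | inr i => simp [sg, qr]
    rw [e]
    exact Submodule.smul_mem _ _ (Submodule.add_mem _ hv (hS v hv))
  have hr : ∀ v ∈ tsp Y x, (Sum.elim 0 (qr v) : κα ⊕ κβ → ℂ) ∈ tsp Y x := by
    intro v hv
    have e : (Sum.elim 0 (qr v) : κα ⊕ κβ → ℂ) = (2⁻¹ : ℂ) • (v - sg v) := by
      funext i
      cases i with
      | inl i => simp [sg, pl]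
      | inr i => simp [sg, qr]; ring
    rw [e]
    exact Submodule.smul_mem _ _ (Submodule.sub_mem _ hv (hS v hv))
  refine ⟨(tsp Y x).comap (tpmL κα κβ), (tsp Y x).comap (tpmR κα κβ), fun p' => Iff.rfl,
    fun q' => Iff.rfl, ?_⟩
  have hxne : x ≠ 0 := by
    intro h
    apply hp
    funext i
    have := congrFun h (Sum.inl i)
    simpa [hx] using this
  rw [← hP.smooth x hpY hxne, ← Module.finrank_prod]
  have hl' : ∀ v ∈ tsp Y x, pl v ∈ (tsp Y x).comap (tpmL κα κβ) := fun v hv => hl v hv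
  have hr' : ∀ v ∈ tsp Y x, qr v ∈ (tsp Y x).comap (tpmR κα κβ) := fun v hv => hr v hv
  let F : ((tsp Y x).comap (tpmL κα κβ)) × ((tsp Y x).comap (tpmR κα κβ)) →ₗ[ℂ] tsp Y x :=
    { toFun := fun u => ⟨tpmL κα κβ (u.1 : κα → ℂ) + tpmR κα κβ (u.2 : κβ → ℂ),
        Submodule.add_mem _ u.1.2 u.2.2⟩
      map_add' := fun u v => by
        apply Subtype.ext
        simp only [Prod.fst_add, Prod.snd_add, Submodule.coe_add, map_add]
        abel
      map_smul' := fun a u => by
        apply Subtype.ext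
        simp only [Prod.smul_fst, Prod.smul_snd, Submodule.coe_smul, map_smul, RingHom.id_apply,
          smul_add] }
  have hF : ∀ u, ((F u : tsp Y x) : κα ⊕ κβ → ℂ) = Sum.elim (u.1 : κα → ℂ) (u.2 : κβ → ℂ) := by
    intro u
    funext i
    cases i with
    | inl i =>
      show (u.1 : κα → ℂ) i + 0 = (u.1 : κα → ℂ) i
      rw [add_zero]
    | inr i =>
      show 0 + (u.2 : κβ → ℂ) i = (u.2 : κβ → ℂ) i
      rw [zero_add]
  refine (LinearEquiv.ofBijective F ⟨?_, ?_⟩).finrank_eq
  · intro u v huv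
    have h1 := congrArg (fun w : tsp Y x => (w : κα ⊕ κβ → ℂ)) huv
    simp only [hF] at h1
    apply Prod.ext
    · apply Subtype.ext
      funext i
      exact congrFun h1 (Sum.inl i)
    · apply Subtype.ext
      funext i
      exact congrFun h1 (Sum.inr i)
  · intro v
    refine ⟨(⟨pl v.1, hl' v.1 v.2⟩, ⟨qr v.1, hr' v.1 v.2⟩), ?_⟩
    apply Subtype.ext
    rw [hF]
    funext i
    cases i <;> rfl

end Pool.Agent.Helper87.TC
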