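import Mathlib
import Pool.Agent.Helper87.TC.Lib

/-! Module TRANS: transport by a linear isomorphism. -/

set_option autoImplicit false

namespace Pool.Agent.Helper87.TC

open MvPolynomial Pool.Agent.Helper48.VMRT Pool.Agent.Helper87.VM

theorem trans_closed {κ κ' : Type} [Fintype κ] [Fintype κ'] (φ : (κ → ℂ) ≃ₗ[ℂ] (κ' → ℂ))
    (S : Set (κ' → ℂ)) (hS : ZClosed S) : ZClosed (φ ⁻¹' S) := by
  have h := zclosed_preimage hS
    (fun j => linp ((LinearMap.proj j : (κ' → ℂ) →ₗ[ℂ] ℂ).comp (φ : (κ → ℂ) →ₗ[ℂ] (κ' → ℂ))))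
  have e : {x : κ → ℂ | ev (fun j => linp ((LinearMap.proj j : (κ' → ℂ) →ₗ[ℂ] ℂ).comp
      (φ : (κ → ℂ) →ₗ[ℂ] (κ' → ℂ)))) x ∈ S} = φ ⁻¹' S := by
    ext x
    rw [Set.mem_setOf_eq, ev_linp]
    exact Iff.rfl
  rwa [e] at h

theorem trans_tan {κ κ' : Type} [Fintype κ] [Fintype κ'] (φ : (κ → ℂ) ≃ₗ[ℂ] (κ' → ℂ))
    (S : Set (κ' → ℂ)) (y v : κ → ℂ) : v ∈ tsp (φ ⁻¹' S) y ↔ φ v ∈ tsp S (φ y) := by
  constructor
  · intro hv
    exact map_mem_tsp (φ : (κ → ℂ) →ₗ[ℂ] (κ' → ℂ)) (fun x hx => hx) hv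
  · intro hv
    have h := map_mem_tsp (S' := φ ⁻¹' S) (φ.symm : (κ' → ℂ) →ₗ[ℂ] (κ → ℂ)) (fun x hx => by
      change φ (φ.symm x) ∈ S
      rwa [φ.apply_symm_apply]) hv
    simpa using h

theorem st_TRANS : ST_TRANS := by
  intro κ κ' _ _ φ S
  refine ⟨trans_closed φ S, ?_, trans_tan φ S, ?_⟩
  · intro n hP
    refine ⟨trans_closed φ S hP.closed, ?_, ?_, ?_, ?_⟩
    · intro a x hx
      change φ (a • x) ∈ S
      rw [map_smul]
      exact hP.cone a _ hx
    · have e : φ ⁻¹' S = ev (fun j => linp ((LinearMap.proj j : (κ → ℂ) →ₗ[ℂ] ℂ).comp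
          (φ.symm : (κ' → ℂ) →ₗ[ℂ] (κ → ℂ)))) '' S := by
        ext x
        constructor
        · intro hx
          exact ⟨φ x, hx, by rw [ev_linp]; exact φ.symm_apply_apply x⟩
        · rintro ⟨y, hy, rfl⟩
          rw [ev_linp]
          change φ (φ.symm y) ∈ S
          rwa [φ.apply_symm_apply]
      rw [e]
      exact prime_image _ hP.irred
    · obtain ⟨x, hx, hx0⟩ := hP.exists_ne
      refine ⟨φ.symm x, ?_, ?_⟩
      · change φ (φ.symm x) ∈ S
        rwa [φ.apply_symm_apply]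
      · intro h
        apply hx0
        rwa [LinearEquiv.map_eq_zero_iff] at h
    · intro x hx hx0
      have e : tsp (φ ⁻¹' S) x = (tsp S (φ x)).map
          (φ.symm : (κ' → ℂ) →ₗ[ℂ] (κ → ℂ)) := by
        ext v
        rw [trans_tan, Submodule.mem_map]
        constructor
        · intro hv
          exact ⟨φ v, hv, φ.symm_apply_apply v⟩
        · rintro ⟨w, hw, rfl⟩
          change φ (φ.symm w) ∈ _
          rwa [φ.apply_symm_apply]
      rw [e, LinearEquiv.finrank_map_eq φ.symm]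
      exact hP.smooth _ hx (by rwa [Ne, LinearEquiv.map_eq_zero_iff])
  · intro e c hc
    classical
    have key : ∀ s t : ℂ, hevv e (fun i : κ' => ∑ j, Polynomial.C (φ (Pi.single j 1) i) * c j) s t
        = φ (hevv e c s t) := by
      intro s t
      funext i
      simp only [hevv]
      rw [hev_sum]
      simp only [hev_C_mul]
      have h1 : hevv e c s t = ∑ j, hev e (c j) s t • (Pi.single j (1 : ℂ) : κ → ℂ) := by
        funext k
        simp [hevv, Finset.sum_apply, Pi.single_apply]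
      have h2 : φ (hevv e c s t) i = ∑ j, hev e (c j) s t * φ (Pi.single j (1 : ℂ)) i := by
        rw [h1, map_sum, Finset.sum_apply]
        refine Finset.sum_congr rfl fun j _ => ?_
        rw [map_smul, Pi.smul_apply, smul_eq_mul]
      change _ = φ (hevv e c s t) i
      rw [h2]
      exact Finset.sum_congr rfl fun j _ => mul_comm _ _
    refine ⟨_, ⟨fun i => ?_, fun s t hst => ?_⟩, key⟩
    · refine Polynomial.natDegree_sum_le_of_forall_le _ _ fun j _ => ?_
      exact (Polynomial.natDegree_C_mul_le _ _).trans (hc.deg j)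
    · rw [key]
      rw [Ne, LinearEquiv.map_eq_zero_iff]
      exact hc.ne s t hst

end Pool.Agent.Helper87.TC
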